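import Pool.Agent.Work.MP_223b32_tc.Interface

/-!
# Block HD: Hasse derivatives of `H ^ N r`
-/

set_option autoImplicit false

namespace Pool.Agent.Work.TC

open Finset Polynomial

namespace HD

variable {E : Type} [Field E]

theorem pow_aux (H : E[X]) (d : ℕ) (hd : 1 ≤ d) (hH : H.natDegree ≤ d) :
    ∀ N i : ℕ, i ≤ N → ∃ P : E[X], hasseDeriv i (H ^ N) = H ^ (N - i) * P ∧
      P.natDegree ≤ i * (d - 1) := by
  classical
  obtain ⟨e, rfl⟩ : ∃ e, d = e + 1 := ⟨d - 1, by omega⟩
  simp only [Nat.add_sub_cancel]
  intro N
  induction N with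
  | zero =>
    intro i hi
    obtain rfl : i = 0 := by omega
    exact ⟨1, by simp, by simp⟩
  | succ N ih =>
    intro i hi
    rcases Nat.lt_or_ge N i with h | h
    · obtain rfl : i = N + 1 := by omega
      refine ⟨hasseDeriv (N + 1) (H ^ (N + 1)), by simp, ?_⟩
      refine (natDegree_hasseDeriv_le _ _).trans ?_
      have h1 : (H ^ (N + 1)).natDegree ≤ (N + 1) * (e + 1) :=
        natDegree_pow_le.trans (Nat.mul_le_mul_left _ hH)
      have h2 : (N + 1) * (e + 1) = (N + 1) * e + (N + 1) := by ring
      omega
    · choose! P hP1 hP2 using ih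
      refine ⟨∑ ij ∈ antidiagonal i, (if ij.1 = 0 then P i else
        H ^ (i - 1 - ij.2) * hasseDeriv ij.1 H * P ij.2), ?_, ?_⟩
      · rw [pow_succ', hasseDeriv_mul, Finset.mul_sum]
        refine Finset.sum_congr rfl fun ij hij => ?_
        have hs : ij.1 + ij.2 = i := mem_antidiagonal.mp hij
        have hb : ij.2 ≤ N := by omega
        rw [hP1 ij.2 hb]
        by_cases h0 : ij.1 = 0
        · rw [if_pos h0, h0, hasseDeriv_zero']
          have h2 : ij.2 = i := by omega
          rw [h2, show N + 1 - i = (N - i) + 1 by omega, pow_succ]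
          ring
        · rw [if_neg h0]
          have h3 : N - ij.2 = (N + 1 - i) + (i - 1 - ij.2) := by omega
          rw [h3, pow_add]
          ring
      · refine natDegree_sum_le_of_forall_le _ _ fun ij hij => ?_
        have hs : ij.1 + ij.2 = i := mem_antidiagonal.mp hij
        have hb : ij.2 ≤ N := by omega
        by_cases h0 : ij.1 = 0
        · rw [if_pos h0]
          exact hP2 i h
        · rw [if_neg h0]
          by_cases hz : hasseDeriv ij.1 H = 0
          · rw [hz, mul_zero, zero_mul, natDegree_zero]
            exact Nat.zero_le _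
          · have h4 : ij.1 ≤ H.natDegree := by
              by_contra hlt
              exact hz (hasseDeriv_eq_zero_of_lt_natDegree _ _ (by omega))
            have h5 := natDegree_hasseDeriv_le H ij.1
            have h6 := hP2 ij.2 hb
            have h7 : (H ^ (i - 1 - ij.2)).natDegree ≤ (i - 1 - ij.2) * (e + 1) :=
              natDegree_pow_le.trans (Nat.mul_le_mul_left _ hH)
            have h8 : (H ^ (i - 1 - ij.2) * hasseDeriv ij.1 H * P ij.2).natDegree ≤
                (H ^ (i - 1 - ij.2)).natDegree + (hasseDeriv ij.1 H).natDegree +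
                  (P ij.2).natDegree :=
              natDegree_mul_le.trans (Nat.add_le_add_right natDegree_mul_le _)
            obtain ⟨a, b⟩ := ij
            simp only at *
            obtain ⟨a', rfl⟩ : ∃ a', a = a' + 1 := ⟨a - 1, by omega⟩
            have h9 : i - 1 - b = a' := by omega
            rw [h9] at h7 h8 ⊢
            subst hs
            have h10 : (a' + 1 + b) * e = a' * e + e + b * e := by ring
            have h11 : a' * (e + 1) = a' * e + a' := by ring
            omega

end HD

open HD in
theorem stmt_HD : Stmt_HD := by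
  classical
  intro E _ H d hd hH N k hk
  choose! P hP1 hP2 using pow_aux H d hd hH
  refine ⟨∑ ij ∈ antidiagonal k, (LinearMap.mulLeft E (H ^ (k - ij.1) * P N ij.1)).comp
    (hasseDeriv ij.2), ?_, ?_⟩
  · intro r
    rw [hasseDeriv_mul, LinearMap.sum_apply, Finset.mul_sum]
    refine Finset.sum_congr rfl fun ij hij => ?_
    have hs : ij.1 + ij.2 = k := mem_antidiagonal.mp hij
    rw [hP1 N ij.1 (by omega), LinearMap.comp_apply, LinearMap.mulLeft_apply,
      show N - ij.1 = (N - k) + (k - ij.1) by omega, pow_add]
    ring
  · intro D r hr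
    rw [LinearMap.sum_apply]
    refine Submodule.sum_mem _ fun ij hij => ?_
    have hs : ij.1 + ij.2 = k := mem_antidiagonal.mp hij
    rw [LinearMap.comp_apply, LinearMap.mulLeft_apply]
    by_cases hz : hasseDeriv ij.2 r = 0
    · rw [hz, mul_zero]
      exact Submodule.zero_mem _
    · have hr0 : r ≠ 0 := by
        rintro rfl
        exact hz (map_zero _)
      rw [mem_degreeLT] at hr ⊢
      have h1 : r.natDegree < D := (natDegree_lt_iff_degree_lt hr0).mpr hr
      have h2 : ij.2 ≤ r.natDegree := by
        by_contra hlt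
        exact hz (hasseDeriv_eq_zero_of_lt_natDegree _ _ (by omega))
      have h3 := natDegree_hasseDeriv_le r ij.2
      have h4 := hP2 N ij.1 (by omega)
      have h5 : (H ^ (k - ij.1)).natDegree ≤ (k - ij.1) * d :=
        natDegree_pow_le.trans (Nat.mul_le_mul_left _ hH)
      have h6 : (H ^ (k - ij.1) * P N ij.1 * hasseDeriv ij.2 r).natDegree ≤
          (H ^ (k - ij.1)).natDegree + (P N ij.1).natDegree + (hasseDeriv ij.2 r).natDegree :=
        natDegree_mul_le.trans (Nat.add_le_add_right natDegree_mul_le _)
      refine lt_of_le_of_lt degree_le_natDegree ?_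
      rw [Nat.cast_lt]
      obtain ⟨e, rfl⟩ : ∃ e, d = e + 1 := ⟨d - 1, by omega⟩
      obtain ⟨a, b⟩ := ij
      simp only [Nat.add_sub_cancel] at *
      subst hs
      rw [Nat.add_sub_cancel_left] at h5 h6
      have h10 : (a + b) * e = a * e + b * e := by ring
      have h11 : b * (e + 1) = b * e + b := by ring
      rw [Nat.add_sub_cancel_left]
      omega

end Pool.Agent.Work.TC
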